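import Mathlib
import Pool.Agent.X189.WE.Main

set_option autoImplicit false

/-!
For every integer `b ≥ 2` and every `α ∈ (0,1)` there is a finite family of Lipschitz 1-periodic
functions whose Weierstrass embedding of the circle is `α`-bi-Hölder.
-/

namespace Pool.Agent.Results.MP_0a5dd0_an.BiHolder

open Pool.Agent.X189.WE
open scoped NNReal

/-- The Weierstrass embedding `x ↦ (W_{g_1}(x), ..., W_{g_m}(x))` into Euclidean space. -/
noncomputable def Phi (b : ℕ) (α : ℝ) {m : ℕ} (g : Fin m → ℝ → ℝ) (x : ℝ) :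
    EuclideanSpace ℝ (Fin m) :=
  WithLp.toLp 2 fun i => W b α (g i) x

theorem result (b : ℕ) (hb : 2 ≤ b) (α : ℝ) (h0 : 0 < α) (h1 : α < 1) :
    ∃ (m : ℕ) (g : Fin m → ℝ → ℝ), 1 ≤ m ∧ (∀ i, ∃ K : ℝ≥0, LipschitzWith K (g i)) ∧
      (∀ i, Function.Periodic (g i) 1) ∧
      ∃ C : ℝ, 1 ≤ C ∧ ∀ x y : ℝ,
        C⁻¹ * dT x y ^ α ≤ ‖Phi b α g x - Phi b α g y‖ ∧
          ‖Phi b α g x - Phi b α g y‖ ≤ C * dT x y ^ α := by
  obtain ⟨M, c, K, hc, hK, hlow, hup⟩ := main hb h0 h1
  let e : Fin (Fintype.card (Fin M ⊕ Fin 2)) ≃ Fin M ⊕ Fin 2 :=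
    (Fintype.equivFin (Fin M ⊕ Fin 2)).symm
  set m := Fintype.card (Fin M ⊕ Fin 2) with hm
  have hm1 : 1 ≤ m := Fintype.card_pos_iff.2 ⟨Sum.inr 0⟩
  have hcoord : ∀ x y (i : Fin m), (Phi b α (fun i => fam b α M (e i)) x -
      Phi b α (fun i => fam b α M (e i)) y) i =
        W b α (fam b α M (e i)) x - W b α (fam b α M (e i)) y := fun x y i => rfl
  refine ⟨m, fun i => fam b α M (e i), hm1, ?_, fun i => fam_periodic M (e i),
    max 1 (max c⁻¹ (Real.sqrt m * K)), le_max_left _ _, ?_⟩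
  · intro i
    obtain ⟨L, hL0, hL⟩ := fam_lip (b := b) (α := α) (e i)
    refine ⟨⟨L, hL0⟩, LipschitzWith.of_dist_le_mul fun x y => ?_⟩
    rw [Real.dist_eq, Real.dist_eq]
    exact hL x y
  · intro x y
    have hd : 0 ≤ dT x y ^ α := by
      have := (reduce (α := α) hb x y).1
      positivity
    set C := max 1 (max c⁻¹ (Real.sqrt m * K)) with hC
    have hC1 : 1 ≤ C := le_max_left _ _
    have hCc : c⁻¹ ≤ C := (le_max_left _ _).trans (le_max_right _ _)
    have hCK : Real.sqrt m * K ≤ C := (le_max_right _ _).trans (le_max_right _ _)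
    constructor
    · obtain ⟨i, hi⟩ := hlow x y
      have h2 : C⁻¹ ≤ c := by
        rw [inv_le_comm₀ (by linarith) hc]; exact hCc
      have h3 : ‖(Phi b α (fun i => fam b α M (e i)) x -
          Phi b α (fun i => fam b α M (e i)) y) (e.symm i)‖ ≤
          ‖Phi b α (fun i => fam b α M (e i)) x - Phi b α (fun i => fam b α M (e i)) y‖ :=
        PiLp.norm_apply_le _ _
      rw [hcoord, e.apply_symm_apply, Real.norm_eq_abs] at h3
      calc C⁻¹ * dT x y ^ α ≤ c * dT x y ^ α := mul_le_mul_of_nonneg_right h2 hd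
        _ ≤ _ := hi
        _ ≤ _ := h3
    · rw [EuclideanSpace.norm_eq]
      have h2 : ∑ i, ‖(Phi b α (fun i => fam b α M (e i)) x -
          Phi b α (fun i => fam b α M (e i)) y) i‖ ^ 2 ≤ m * (K * dT x y ^ α) ^ 2 := by
        calc ∑ i, ‖(Phi b α (fun i => fam b α M (e i)) x -
              Phi b α (fun i => fam b α M (e i)) y) i‖ ^ 2 ≤ ∑ _i : Fin m, (K * dT x y ^ α) ^ 2 := by
              refine Finset.sum_le_sum fun i _ => ?_
              rw [hcoord, Real.norm_eq_abs]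
              have := hup x y (e i)
              gcongr
          _ = m * (K * dT x y ^ α) ^ 2 := by simp
      calc Real.sqrt (∑ i, ‖(Phi b α (fun i => fam b α M (e i)) x -
              Phi b α (fun i => fam b α M (e i)) y) i‖ ^ 2) ≤
            Real.sqrt (m * (K * dT x y ^ α) ^ 2) := Real.sqrt_le_sqrt h2
        _ = Real.sqrt m * K * dT x y ^ α := by
            rw [Real.sqrt_mul (by positivity), Real.sqrt_sq (by positivity)]; ring
        _ ≤ C * dT x y ^ α := mul_le_mul_of_nonneg_right hCK hd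

end Pool.Agent.Results.MP_0a5dd0_an.BiHolder
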